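import Pool.Agent.H73.TS.TargetsB

/-! # MP_b907b5, module LAT: the lattice packing is totally separable -/

open MeasureTheory Set Metric
open scoped ENNReal

namespace Pool.Agent.H78.TS

open Pool.Agent.H73.TS

/-- the coordinate functionals -/
theorem coords {d : ℕ} {w : Fin d → E d} (hw : LinearIndependent ℝ w) :
    ∃ φ : Fin d → (E d →L[ℝ] ℝ), ∀ i j, φ i (w j) = if i = j then 1 else 0 := by
  have hs : (⊤ : Submodule ℝ (E d)) ≤ Submodule.span ℝ (Set.range w) :=
    (hw.span_eq_top_of_card_eq_finrank' (by simp)).ge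
  refine ⟨fun i => LinearMap.toContinuousLinearMap ((Module.Basis.mk hw hs).coord i), ?_⟩
  intro i j
  have h1 : (Module.Basis.mk hw hs) j = w j := by simp
  show (Module.Basis.mk hw hs).coord i (w j) = _
  rw [← h1, Module.Basis.coord_apply, Module.Basis.repr_self, Finsupp.single_apply]
  simp only [eq_comm]

theorem coord_sum {d : ℕ} {w : Fin d → E d} {φ : Fin d → (E d →L[ℝ] ℝ)}
    (hφ : ∀ i j, φ i (w j) = if i = j then 1 else 0) (i : Fin d) (a : Fin d → ℝ) :
    φ i (∑ j, a j • w j) = a i := by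
  rw [map_sum]
  simp [hφ]

theorem coord_par {d : ℕ} {w : Fin d → E d} {v : E d} {φ : Fin d → (E d →L[ℝ] ℝ)}
    (hφ : ∀ i j, φ i (w j) = if i = j then 1 else 0) (i : Fin d) {y : E d} (hy : y ∈ Par w v) :
    φ i v ≤ φ i y ∧ φ i y ≤ φ i v + 1 := by
  obtain ⟨a, ha, rfl⟩ := hy
  rw [map_add, coord_sum hφ]
  exact ⟨by linarith [(ha i).1], by linarith [(ha i).2]⟩

theorem int_ne {d : ℕ} {w : Fin d → E d} {v : E d} {K : Set (E d)} {φ : Fin d → (E d →L[ℝ] ℝ)}
    (hφ : ∀ i j, φ i (w j) = if i = j then 1 else 0) (hK : K ⊆ Par w v) (i : Fin d) {u y : E d}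
    (hu : u ∈ Lat w) (hy : y ∈ interior ((fun x => u + x) '' K)) (n : ℤ) :
    φ i y ≠ φ i v + n := by
  obtain ⟨m, rfl⟩ := hu
  have hc : Continuous fun t : ℝ => y + t • w i := by fun_prop
  have h1 : ∀ᶠ t in nhds (0 : ℝ), y + t • w i ∈
      interior ((fun x => (∑ j, (m j : ℝ) • w j) + x) '' K) := by
    refine hc.continuousAt.eventually (isOpen_interior.mem_nhds ?_)
    show y + (0 : ℝ) • w i ∈ _
    rw [zero_smul, add_zero]
    exact hy
  obtain ⟨ε, hε, h2⟩ := Metric.eventually_nhds_iff.1 h1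
  have key : ∀ t : ℝ, |t| < ε → φ i v ≤ φ i y + t - m i ∧ φ i y + t - m i ≤ φ i v + 1 := by
    intro t ht
    have h3 := interior_subset (h2 (y := t) (by simpa using ht))
    obtain ⟨x, hx, hx2⟩ := h3
    have h4 := coord_par hφ i (hK hx)
    have h5 : φ i ((∑ j, (m j : ℝ) • w j) + x) = φ i (y + t • w i) := congrArg (φ i) hx2
    rw [map_add, map_add, map_smul, coord_sum hφ, hφ, if_pos rfl, smul_eq_mul, mul_one] at h5
    constructor <;> linarith [h4.1, h4.2]
  have h3 := (key (-(ε / 2)) (by rw [abs_neg, abs_of_pos (by linarith)]; linarith)).1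
  have h4 := (key (ε / 2) (by rw [abs_of_pos (by linarith)]; linarith)).2
  intro h5
  rw [h5] at h3 h4
  have h6 : m i < n := by
    have : (m i : ℝ) < n := by linarith
    exact_mod_cast this
  have h7 : n < m i + 1 := by
    have : (n : ℝ) < m i + 1 := by linarith
    exact_mod_cast this
  omega

theorem lat_totSep {d : ℕ} {w : Fin d → E d} {v : E d} {K : Set (E d)}
    (hw : LinearIndependent ℝ w) (hK : K ⊆ Par w v) : TotSep K (Lat w) := by
  obtain ⟨φ, hφ⟩ := coords hw
  rintro t ⟨m, rfl⟩ s ⟨n, rfl⟩ hts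
  have h1 : ∃ i, m i ≠ n i := by
    by_contra h
    push Not at h
    exact hts (by rw [funext h])
  obtain ⟨i, hi⟩ := h1
  have h0 : φ i ≠ 0 := by
    intro h
    have h2 := hφ i i
    rw [h, if_pos rfl] at h2
    simp at h2
  rcases lt_or_gt_of_ne hi with h | h
  · refine ⟨φ i, φ i v + n i, h0, ?_, ?_, fun u hu y hy => int_ne hφ hK i hu hy _⟩
    · intro x hx
      have h2 := (coord_par hφ i (hK hx)).2
      have h3 : (m i : ℝ) + 1 ≤ n i := by exact_mod_cast h
      rw [map_add, coord_sum hφ]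
      linarith
    · intro x hx
      have h2 := (coord_par hφ i (hK hx)).1
      rw [map_add, coord_sum hφ]
      linarith
  · refine ⟨-φ i, -(φ i v + m i), neg_ne_zero.2 h0, ?_, ?_, fun u hu y hy h2 => ?_⟩
    · intro x hx
      have h2 := (coord_par hφ i (hK hx)).1
      rw [_root_.neg_apply, map_add, coord_sum hφ]
      linarith
    · intro x hx
      have h2 := (coord_par hφ i (hK hx)).2
      have h3 : (n i : ℝ) + 1 ≤ m i := by exact_mod_cast h
      rw [_root_.neg_apply, map_add, coord_sum hφ]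
      linarith
    · rw [_root_.neg_apply] at h2
      exact int_ne hφ hK i hu hy _ (neg_injective h2)

theorem packing_of_totSep {d : ℕ} {K T : Set (E d)} (h : TotSep K T) : Packing K T := by
  intro t ht s hs hts
  obtain ⟨f, c, -, h1, h2, h3⟩ := h t ht s hs hts
  rw [Set.eq_empty_iff_forall_notMem]
  rintro y ⟨hy1, hy2⟩
  obtain ⟨x, hx, rfl⟩ := interior_subset hy1
  obtain ⟨x', hx', h4⟩ := interior_subset hy2
  have h5 := h1 x hx
  have h6 := h2 x' hx'
  have h7 : f (s + x') = f (t + x) := congrArg f h4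
  exact h3 t ht _ hy1 (le_antisymm h5 (by rw [← h7]; exact h6))

/-- LAT. The lattice packing is totally separable. -/
theorem lat : T_LAT := fun _ _ _ _ hw hK =>
  ⟨packing_of_totSep (lat_totSep hw hK), lat_totSep hw hK⟩

end Pool.Agent.H78.TS
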